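import Pool.Agent.H602PD.Main

/-!
# The chromatic number of fork-free graphs is at most `ω (ω + 1) / 2`
-/

set_option autoImplicit false

namespace Pool.Agent.Results.MP_fad78f_co.ForkFreeQuadratic

open Pool.Agent.H602PD

/-- `G` has no induced subgraph isomorphic to the fork with the edges `ab, bc, cd, ce`. -/
def IsForkFree {V : Type} (G : SimpleGraph V) : Prop :=
  ¬ ∃ a b c d e : V, a ≠ c ∧ a ≠ d ∧ a ≠ e ∧ b ≠ d ∧ b ≠ e ∧ d ≠ e ∧
    G.Adj a b ∧ G.Adj b c ∧ G.Adj c d ∧ G.Adj c e ∧
    ¬ G.Adj a c ∧ ¬ G.Adj a d ∧ ¬ G.Adj a e ∧ ¬ G.Adj b d ∧ ¬ G.Adj b e ∧ ¬ G.Adj d e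

theorem col_union {V : Type} {G : SimpleGraph V} {A B : Set V} {k l : ℕ} (hA : Col G A k)
    (hB : Col G B l) : Col G (A ∪ B) (k + l) := by
  classical
  obtain ⟨f, f1, f2⟩ := hA
  obtain ⟨g, g1, g2⟩ := hB
  refine ⟨fun v => if v ∈ A then f v else k + g v, ?_, ?_⟩
  · intro v hv
    beta_reduce
    split_ifs with h
    · exact (f1 v h).trans_le (Nat.le_add_right _ _)
    · exact Nat.add_lt_add_left (g1 v (hv.resolve_left h)) k
  · intro u hu v hv huv
    beta_reduce
    split_ifs with h1 h2 h2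
    · exact f2 u h1 v h2 huv
    · have := f1 u h1
      omega
    · have := f1 v h2
      omega
    · intro h
      exact g2 u (hu.resolve_left h1) v (hv.resolve_left h2) huv (by omega)

theorem chi_bound {V : Type} [Fintype V] {G : SimpleGraph V} (hff : ForkFree G) :
    ∀ (k : ℕ) (S : Set V), CB G S k → Col G S (k * (k + 1) / 2) := by
  classical
  intro k
  induction k with
  | zero =>
    intro S hS
    refine ⟨fun _ => 0, fun v hv => ?_, fun u hu => ?_⟩
    · have := hS {v} (by simpa using hv) (by simp)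
      simp at this
    · have := hS {u} (by simpa using hu) (by simp)
      simp at this
  | succ k ih =>
    intro S hS
    rcases S.eq_empty_or_nonempty with rfl | hne
    · exact ⟨fun _ => 0, fun v hv => absurd hv (Set.notMem_empty v),
        fun v hv => absurd hv (Set.notMem_empty v)⟩
    obtain ⟨x, hx⟩ := hne
    obtain ⟨A, hAS, hA, hh⟩ := goodSet_of_induce (main_good _ ↥S rfl ⟨⟨x, hx⟩⟩ (G.induce S)
      (hff.induce S) (fun _ => 1) (fun _ => Nat.one_pos)) (G := G) (w := fun _ => 1)
    have h1 : Col G A (k + 1) :=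
      hA A subset_rfl _ (fun K hK hKc => hS K (hK.trans hAS) hKc)
    have h2 : Col G (S \ A) (k * (k + 1) / 2) := by
      refine ih _ (fun K hK hKc => ?_)
      by_contra hcon
      push Not at hcon
      have hw : ∀ K' : Set V, wt (fun _ => 1) K' = K'.ncard := wt_one
      obtain ⟨y, hy1, hy2⟩ := hh K ⟨fun v hv => (hK hv).1, hKc, fun K' h3 h4 => by
        have := hS K' h3 h4
        rw [hw, hw]
        omega⟩
      exact (hK hy1).2 hy2
    have h3 := col_union h1 h2
    rw [Set.union_sdiff_cancel hAS] at h3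
    have h4 : k + 1 + k * (k + 1) / 2 = (k + 1) * (k + 1 + 1) / 2 := by
      have : (k + 1) * (k + 1 + 1) = k * (k + 1) + 2 * (k + 1) := by ring
      omega
    rwa [h4] at h3

/-- Every finite fork-free graph `G` has a proper colouring with `ω (G) (ω (G) + 1) / 2` colours. -/
theorem result : ∀ (V : Type) [Fintype V] (G : SimpleGraph V), IsForkFree G →
    G.chromaticNumber ≤ ((G.cliqueNum * (G.cliqueNum + 1) / 2 : ℕ) : ℕ∞) := by
  classical
  intro V _ G hG
  have hff : ForkFree G := by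
    intro a b c d e h1 h2 h3 h4 h5 h6 h7 h8 h9 h10 h11
    refine hG ⟨a, b, c, d, e, ?_, ?_, ?_, ?_, ?_, h11, h1, h2, h3, h4, h5, h6, h7, h8, h9, h10⟩
    · rintro rfl; exact h6 h3
    · rintro rfl; exact h5 h3.symm
    · rintro rfl; exact h5 h4.symm
    · rintro rfl; exact h6 h1
    · rintro rfl; exact h7 h1
  rw [SimpleGraph.chromaticNumber_le_iff_colorable]
  obtain ⟨f, hf1, hf2⟩ := chi_bound hff G.cliqueNum Set.univ (fun K _ hK => by
    have h1 : G.IsClique (K.toFinset : Set V) := by simpa using hK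
    have h2 := h1.card_le_cliqueNum
    rwa [← Set.ncard_eq_toFinset_card'] at h2)
  exact ⟨SimpleGraph.Coloring.mk (fun v => (⟨f v, hf1 v (Set.mem_univ v)⟩ : Fin _)) (by
    intro u v huv h
    exact hf2 u (Set.mem_univ u) v (Set.mem_univ v) huv (Fin.mk.inj h))⟩

end Pool.Agent.Results.MP_fad78f_co.ForkFreeQuadratic
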